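import Mathlib

/-!
# Every infinite group is an exact product of two infinite subsets

We answer Q1 of MP_b3a091 affirmatively: every infinite group `G` (in particular every countably
infinite group) has subsets `A`, `B`, both infinite, such that every `g : G` is `a * b` for exactly
one pair `(a, b)` with `a ∈ A`, `b ∈ B`.

Proof. (1) If `G` is not finitely generated, use an increasing chain of finitely generated
subgroups and multiply by transversals alternately on the left and on the right.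
(2) If `G` is finitely generated, try to build `A` and `B` greedily. If the greedy procedure gets
stuck, then `G` is the union of a finite set and of finitely many sets `{x | x * c * x = d}`.
By pigeonhole and B. H. Neumann's covering lemma the FC-centre of `G` has finite index, so `G` is
virtually abelian and has an element `z` of infinite order. The greedy procedure works in the
cyclic group generated by `z`, and a transversal passes the factorization from the subgroup to `G`.
-/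

namespace Pool.Agent.Results.MP_b3a091_al.EveryInfiniteGroup

open Subgroup Pointwise Set

/-- `A * B = U` and products of elements of `A` and `B` are pairwise different. -/
def Ex {G : Type*} [Group G] (A B U : Set G) : Prop :=
  (∀ a ∈ A, ∀ b ∈ B, a * b ∈ U) ∧ (∀ u ∈ U, ∃ a ∈ A, ∃ b ∈ B, a * b = u) ∧
    ∀ a ∈ A, ∀ b ∈ B, ∀ a' ∈ A, ∀ b' ∈ B, a * b = a' * b' → a = a' ∧ b = b'

section limit

variable {G : Type*} [Group G]

theorem infinite_iUnion_of_ssubset (A : ℕ → Set G) (h : ∀ n, A n ⊂ A (n + 1)) :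
    (⋃ n, A n).Infinite := by
  have hm : Monotone A := monotone_nat_of_le_succ fun n => (h n).subset
  choose a ha ha' using fun n => Set.exists_of_ssubset (h n)
  refine Set.infinite_of_injective_forall_mem (f := a) ?_ fun n => mem_iUnion.2 ⟨n + 1, ha n⟩
  intro i j hij
  by_contra hne
  rcases lt_or_gt_of_ne hne with hlt | hlt
  · exact ha' j (hij ▸ hm hlt (ha i))
  · exact ha' i (hij.symm ▸ hm hlt (ha j))

theorem limit (A B U : ℕ → Set G) (hA : ∀ n, A n ⊂ A (n + 1)) (hB : ∀ n, B n ⊂ B (n + 1))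
    (h : ∀ n, Ex (A n) (B n) (U n)) :
    (⋃ n, A n).Infinite ∧ (⋃ n, B n).Infinite ∧ Ex (⋃ n, A n) (⋃ n, B n) (⋃ n, U n) := by
  have hmA : Monotone A := monotone_nat_of_le_succ fun n => (hA n).subset
  have hmB : Monotone B := monotone_nat_of_le_succ fun n => (hB n).subset
  refine ⟨infinite_iUnion_of_ssubset A hA, infinite_iUnion_of_ssubset B hB, ?_, ?_, ?_⟩
  · intro a ha b hb
    obtain ⟨i, hi⟩ := mem_iUnion.1 ha
    obtain ⟨j, hj⟩ := mem_iUnion.1 hb
    exact mem_iUnion.2 ⟨max i j, (h _).1 a (hmA (le_max_left _ _) hi) b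
      (hmB (le_max_right _ _) hj)⟩
  · intro u hu
    obtain ⟨i, hi⟩ := mem_iUnion.1 hu
    obtain ⟨a, ha, b, hb, hab⟩ := (h i).2.1 u hi
    exact ⟨a, mem_iUnion.2 ⟨i, ha⟩, b, mem_iUnion.2 ⟨i, hb⟩, hab⟩
  · intro a ha b hb a' ha' b' hb' heq
    obtain ⟨i, hi⟩ := mem_iUnion.1 ha
    obtain ⟨j, hj⟩ := mem_iUnion.1 hb
    obtain ⟨k, hk⟩ := mem_iUnion.1 ha'
    obtain ⟨l, hl⟩ := mem_iUnion.1 hb'
    have h1 : i ≤ max (max i j) (max k l) := (le_max_left _ _).trans (le_max_left _ _)
    have h2 : j ≤ max (max i j) (max k l) := (le_max_right _ _).trans (le_max_left _ _)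
    have h3 : k ≤ max (max i j) (max k l) := (le_max_left _ _).trans (le_max_right _ _)
    have h4 : l ≤ max (max i j) (max k l) := (le_max_right _ _).trans (le_max_right _ _)
    exact (h (max (max i j) (max k l))).2.2 a (hmA h1 hi) b (hmB h2 hj) a' (hmA h3 hk) b'
      (hmB h4 hl) heq

end limit

section greedy

variable {G : Type*} [Group G]

/-- The property which makes the greedy construction work. -/
def Free (G : Type*) [Group G] : Prop :=
  ∀ (F : Finset G) (S : Finset (G × G)), ∃ x : G, x ∉ F ∧ ∀ p ∈ S, x * p.1 * x ≠ p.2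

theorem greedy_step [DecidableEq G] (hG : Free G) (A B : Finset G)
    (h : Ex (A : Set G) (B : Set G) ((A * B : Finset G) : Set G)) (g : G) (hg : g ∉ A * B) :
    ∃ x y : G, x ∉ A ∧ y ∉ B ∧ x * y = g ∧
      Ex ((insert x A : Finset G) : Set G) ((insert y B : Finset G) : Set G)
        ((insert x A * insert y B : Finset G) : Set G) := by
  obtain ⟨x, hxF, hxS⟩ := hG (A * B * B⁻¹ ∪ A ∪ ({g} * B⁻¹) ∪ ({g} * (A⁻¹ * A * B)⁻¹) ∪ {g} * B⁻¹)
    ((B ×ˢ A).image fun p => (p.1 * g⁻¹, p.2))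
  simp only [Finset.mem_union, not_or] at hxF
  obtain ⟨⟨⟨⟨h1, h2⟩, h3⟩, h4⟩, -⟩ := hxF
  have k1 : ∀ a ∈ A, ∀ b ∈ B, ∀ b' ∈ B, x * b' ≠ a * b := by
    intro a ha b hb b' hb' heq
    apply h1
    have : x = a * b * b'⁻¹ := by rw [← heq]; group
    rw [this]
    exact Finset.mul_mem_mul (Finset.mul_mem_mul ha hb) (Finset.inv_mem_inv hb')
  have k2 : ∀ b ∈ B, x * b ≠ g := by
    intro b hb heq
    apply h3
    have : x = g * b⁻¹ := by rw [← heq]; group
    rw [this]
    exact Finset.mul_mem_mul (Finset.mem_singleton_self g) (Finset.inv_mem_inv hb)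
  have k3 : ∀ a ∈ A, ∀ b ∈ B, ∀ a' ∈ A, a' * (x⁻¹ * g) ≠ a * b := by
    intro a ha b hb a' ha' heq
    apply h4
    have e1 : x⁻¹ * g = a'⁻¹ * a * b := by
      have := congrArg (fun z => a'⁻¹ * z) heq
      simpa [mul_assoc] using this
    have : x = g * (a'⁻¹ * a * b)⁻¹ := by rw [← e1]; group
    rw [this]
    exact Finset.mul_mem_mul (Finset.mem_singleton_self g) (Finset.inv_mem_inv
      (Finset.mul_mem_mul (Finset.mul_mem_mul (Finset.inv_mem_inv ha') ha) hb))
  have k4 : ∀ a ∈ A, ∀ b ∈ B, x * b ≠ a * (x⁻¹ * g) := by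
    intro a ha b hb heq
    refine hxS (b * g⁻¹, a) (Finset.mem_image.2 ⟨(b, a), Finset.mem_product.2 ⟨hb, ha⟩, rfl⟩) ?_
    have := congrArg (fun z => z * (g⁻¹ * x)) heq
    simpa [mul_assoc] using this
  have k5 : ∀ a ∈ A, a * (x⁻¹ * g) ≠ g := by
    intro a ha heq
    apply h2
    have e : a * x⁻¹ = 1 := by
      have := congrArg (fun z => z * g⁻¹) heq
      simpa [mul_assoc] using this
    rwa [← mul_inv_eq_one.1 e]
  have k6 : ∀ a ∈ A, ∀ b ∈ B, a * b ≠ g := fun a ha b hb heq =>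
    hg (heq ▸ Finset.mul_mem_mul ha hb)
  have hxy : x * (x⁻¹ * g) = g := by group
  have hyB : x⁻¹ * g ∉ B := by
    intro hb
    exact k2 _ hb hxy
  refine ⟨x, x⁻¹ * g, h2, hyB, hxy, ?_, ?_, ?_⟩
  · intro a ha b hb
    exact Finset.mem_coe.2 (Finset.mul_mem_mul ha hb)
  · intro u hu
    obtain ⟨a, ha, b, hb, hab⟩ := Finset.mem_mul.1 (Finset.mem_coe.1 hu)
    exact ⟨a, ha, b, hb, hab⟩
  · intro a ha b hb a' ha' b' hb' heq
    rw [Finset.mem_coe, Finset.mem_insert] at ha hb ha' hb'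
    rcases ha with rfl | ha <;> rcases hb with rfl | hb <;> rcases ha' with ha' | ha' <;>
      rcases hb' with hb' | hb'
    · exact ⟨ha'.symm, hb'.symm⟩
    · subst ha'
      exact absurd (heq.symm.trans hxy) (k2 _ hb')
    · subst hb'
      exact absurd (heq.symm.trans hxy) (k5 _ ha')
    · exact absurd (heq.symm.trans hxy) (k6 _ ha' _ hb')
    · subst ha' hb'
      exact absurd (heq.trans hxy) (k2 _ hb)
    · subst ha'
      exact ⟨rfl, mul_left_cancel heq⟩
    · subst hb'
      exact absurd heq (k4 _ ha' _ hb)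
    · exact absurd heq (k1 _ ha' _ hb' _ hb)
    · subst ha' hb'
      exact absurd (heq.trans hxy) (k5 _ ha)
    · subst ha'
      exact absurd heq.symm (k4 _ ha _ hb')
    · subst hb'
      exact ⟨mul_right_cancel heq, rfl⟩
    · exact absurd heq (k3 _ ha' _ hb' _ ha)
    · subst ha' hb'
      exact absurd (heq.trans hxy) (k6 _ ha _ hb)
    · subst ha'
      exact absurd heq.symm (k1 _ ha _ hb _ hb')
    · subst hb'
      exact absurd heq.symm (k3 _ ha _ hb _ ha')
    · exact h.2.2 a ha b hb a' ha' b' hb' heq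

/-- The states of the greedy construction. -/
def State (G : Type*) [Group G] [DecidableEq G] : Type _ :=
  {p : Finset G × Finset G // Ex (p.1 : Set G) (p.2 : Set G) ((p.1 * p.2 : Finset G) : Set G)}

theorem greedy_next [DecidableEq G] [Infinite G] (hG : Free G) (s : State G) (g : G) :
    ∃ t : State G, s.1.1 ⊂ t.1.1 ∧ s.1.2 ⊂ t.1.2 ∧ g ∈ t.1.1 * t.1.2 := by
  obtain ⟨⟨A, B⟩, h⟩ := s
  simp only at h
  by_cases hg : g ∈ A * B
  · obtain ⟨g', hg'⟩ := Infinite.exists_notMem_finset (A * B)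
    obtain ⟨x, y, hx, hy, hxy, hE⟩ := greedy_step hG A B h g' hg'
    refine ⟨⟨(insert x A, insert y B), hE⟩, Finset.ssubset_insert hx, Finset.ssubset_insert hy, ?_⟩
    exact Finset.mul_subset_mul (Finset.subset_insert _ _) (Finset.subset_insert _ _) hg
  · obtain ⟨x, y, hx, hy, hxy, hE⟩ := greedy_step hG A B h g hg
    refine ⟨⟨(insert x A, insert y B), hE⟩, Finset.ssubset_insert hx, Finset.ssubset_insert hy, ?_⟩
    exact Finset.mem_mul.2 ⟨x, Finset.mem_insert_self _ _, y, Finset.mem_insert_self _ _, hxy⟩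

theorem greedy [Countable G] [Infinite G] (hG : Free G) :
    ∃ A B : Set G, A.Infinite ∧ B.Infinite ∧ Ex A B univ := by
  classical
  obtain ⟨f, hf⟩ := exists_surjective_nat G
  choose nxt h1 h2 h3 using greedy_next (G := G) hG
  let s : ℕ → State G := fun n => Nat.rec ⟨(∅, ∅), by
    refine ⟨?_, ?_, ?_⟩ <;> simp⟩ (fun n t => nxt t (f n)) n
  have hs : ∀ n, s (n + 1) = nxt (s n) (f n) := fun n => rfl
  have key := limit (fun n => ((s n).1.1 : Set G)) (fun n => ((s n).1.2 : Set G))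
    (fun n => (((s n).1.1 * (s n).1.2 : Finset G) : Set G))
    (fun n => by simpa only [hs] using Finset.coe_ssubset.2 (h1 (s n) (f n)))
    (fun n => by simpa only [hs] using Finset.coe_ssubset.2 (h2 (s n) (f n)))
    (fun n => (s n).2)
  have hU : (⋃ n, (((s n).1.1 * (s n).1.2 : Finset G) : Set G)) = univ := by
    refine eq_univ_of_forall fun g => ?_
    obtain ⟨n, rfl⟩ := hf g
    refine mem_iUnion.2 ⟨n + 1, ?_⟩
    rw [hs]
    exact Finset.mem_coe.2 (h3 (s n) (f n))
  rw [hU] at key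
  exact ⟨_, _, key.1, key.2.1, key.2.2⟩

end greedy

section transfer

variable {G : Type*} [Group G]

theorem ext_left (H K : Subgroup G) (hHK : H ≤ K) (A B : Set G) (h : Ex A B (H : Set G)) :
    ∃ A' : Set G, A ⊆ A' ∧ Ex A' B (K : Set G) ∧ (H ≠ K → A' ≠ A) := by
  obtain ⟨T, hT, h1⟩ := H.exists_isComplement_left 1
  have hTu : ∀ t ∈ T, ∀ x ∈ H, ∀ t' ∈ T, ∀ x' ∈ H, t * x = t' * x' → t = t' ∧ x = x' := by
    intro t ht x hx t' ht' x' hx' heq
    have := hT.1 (a₁ := (⟨t, ht⟩, ⟨x, hx⟩)) (a₂ := (⟨t', ht'⟩, ⟨x', hx'⟩)) heq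
    simp only [Prod.mk.injEq, Subtype.mk.injEq] at this
    exact this
  refine ⟨(T ∩ K) * A, ?_, ⟨?_, ?_, ?_⟩, ?_⟩
  · intro a ha
    exact ⟨1, ⟨h1, K.one_mem⟩, a, ha, one_mul a⟩
  · rintro _ ⟨t, ⟨ht, htK⟩, a, ha, rfl⟩ b hb
    have : t * (a * b) ∈ K := K.mul_mem htK (hHK (h.1 a ha b hb))
    simpa [mul_assoc] using this
  · intro k hk
    obtain ⟨⟨⟨t, ht⟩, ⟨x, hx⟩⟩, htx⟩ := hT.2 k
    simp only at htx
    obtain ⟨a, ha, b, hb, rfl⟩ := h.2.1 x hx
    refine ⟨t * a, ⟨t, ⟨ht, ?_⟩, a, ha, rfl⟩, b, hb, by rw [← htx, mul_assoc]⟩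
    have : t = k * (a * b)⁻¹ := by rw [← htx]; group
    rw [this]
    exact K.mul_mem hk (K.inv_mem (hHK hx))
  · rintro _ ⟨t, ⟨ht, htK⟩, a, ha, rfl⟩ b hb _ ⟨t', ⟨ht', htK'⟩, a', ha', rfl⟩ b' hb' heq
    simp only [mul_assoc] at heq
    obtain ⟨e1, e2⟩ := hTu t ht _ (h.1 a ha b hb) t' ht' _ (h.1 a' ha' b' hb') heq
    obtain ⟨e3, e4⟩ := h.2.2 a ha b hb a' ha' b' hb' e2
    exact ⟨by rw [e1, e3], e4⟩
  · intro hne heq
    apply hne
    refine le_antisymm hHK fun k hk => ?_
    obtain ⟨⟨⟨t, ht⟩, ⟨x, hx⟩⟩, htx⟩ := hT.2 k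
    simp only at htx
    obtain ⟨a, ha, b, hb, rfl⟩ := h.2.1 x hx
    have htK : t ∈ K := by
      have : t = k * (a * b)⁻¹ := by rw [← htx]; group
      rw [this]
      exact K.mul_mem hk (K.inv_mem (hHK hx))
    have : t * a ∈ A := heq ▸ ⟨t, ⟨ht, htK⟩, a, ha, rfl⟩
    rw [← htx, ← mul_assoc]
    exact h.1 _ this b hb

theorem ext_right (H K : Subgroup G) (hHK : H ≤ K) (A B : Set G) (h : Ex A B (H : Set G)) :
    ∃ B' : Set G, B ⊆ B' ∧ Ex A B' (K : Set G) ∧ (H ≠ K → B' ≠ B) := by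
  obtain ⟨T, hT, h1⟩ := H.exists_isComplement_right 1
  have hTu : ∀ t ∈ T, ∀ x ∈ H, ∀ t' ∈ T, ∀ x' ∈ H, x * t = x' * t' → t = t' ∧ x = x' := by
    intro t ht x hx t' ht' x' hx' heq
    have := hT.1 (a₁ := (⟨x, hx⟩, ⟨t, ht⟩)) (a₂ := (⟨x', hx'⟩, ⟨t', ht'⟩)) heq
    simp only [Prod.mk.injEq, Subtype.mk.injEq] at this
    exact ⟨this.2, this.1⟩
  refine ⟨B * (T ∩ K), ?_, ⟨?_, ?_, ?_⟩, ?_⟩
  · intro a ha
    exact ⟨a, ha, 1, ⟨h1, K.one_mem⟩, mul_one a⟩
  · rintro a ha _ ⟨b, hb, t, ⟨ht, htK⟩, rfl⟩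
    have : (a * b) * t ∈ K := K.mul_mem (hHK (h.1 a ha b hb)) htK
    simpa [mul_assoc] using this
  · intro k hk
    obtain ⟨⟨⟨x, hx⟩, ⟨t, ht⟩⟩, htx⟩ := hT.2 k
    simp only at htx
    obtain ⟨a, ha, b, hb, rfl⟩ := h.2.1 x hx
    refine ⟨a, ha, b * t, ⟨b, hb, t, ⟨ht, ?_⟩, rfl⟩, by rw [← htx, mul_assoc]⟩
    have : t = (a * b)⁻¹ * k := by rw [← htx]; group
    rw [this]
    exact K.mul_mem (K.inv_mem (hHK hx)) hk
  · rintro a ha _ ⟨b, hb, t, ⟨ht, htK⟩, rfl⟩ a' ha' _ ⟨b', hb', t', ⟨ht', htK'⟩, rfl⟩ heq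
    simp only [← mul_assoc] at heq
    obtain ⟨e1, e2⟩ := hTu t ht _ (h.1 a ha b hb) t' ht' _ (h.1 a' ha' b' hb') heq
    obtain ⟨e3, e4⟩ := h.2.2 a ha b hb a' ha' b' hb' e2
    exact ⟨e3, by rw [e1, e4]⟩
  · intro hne heq
    apply hne
    refine le_antisymm hHK fun k hk => ?_
    obtain ⟨⟨⟨x, hx⟩, ⟨t, ht⟩⟩, htx⟩ := hT.2 k
    simp only at htx
    obtain ⟨a, ha, b, hb, rfl⟩ := h.2.1 x hx
    have htK : t ∈ K := by
      have : t = (a * b)⁻¹ * k := by rw [← htx]; group
      rw [this]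
      exact K.mul_mem (K.inv_mem (hHK hx)) hk
    have : b * t ∈ B := heq ▸ ⟨b, hb, t, ⟨ht, htK⟩, rfl⟩
    rw [← htx, mul_assoc]
    exact h.1 a ha _ this

/-- Two infinite sets factorizing a subgroup give a factorization of the group. -/
theorem of_subgroup (H : Subgroup G) (A B : Set G) (hA : A.Infinite) (hB : B.Infinite)
    (h : Ex A B (H : Set G)) : ∃ A B : Set G, A.Infinite ∧ B.Infinite ∧ Ex A B univ := by
  obtain ⟨A', hAA', h', -⟩ := ext_left H ⊤ le_top A B h
  exact ⟨A', B, hA.mono hAA', hB, by simpa using h'⟩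

theorem of_free_subgroup (H : Subgroup G) [Countable H] [Infinite H] (hH : Free H) :
    ∃ A B : Set G, A.Infinite ∧ B.Infinite ∧ Ex A B univ := by
  obtain ⟨A, B, hA, hB, h⟩ := greedy hH
  refine of_subgroup H (Subtype.val '' A) (Subtype.val '' B)
    (hA.image Subtype.val_injective.injOn) (hB.image Subtype.val_injective.injOn) ⟨?_, ?_, ?_⟩
  · rintro _ ⟨a, ha, rfl⟩ _ ⟨b, hb, rfl⟩
    exact (a * b).2
  · intro u hu
    obtain ⟨a, ha, b, hb, hab⟩ := h.2.1 ⟨u, hu⟩ trivial
    exact ⟨a, ⟨a, ha, rfl⟩, b, ⟨b, hb, rfl⟩, by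
      have := congrArg Subtype.val hab
      simpa using this⟩
  · rintro _ ⟨a, ha, rfl⟩ _ ⟨b, hb, rfl⟩ _ ⟨a', ha', rfl⟩ _ ⟨b', hb', rfl⟩ heq
    obtain ⟨e1, e2⟩ := h.2.2 a ha b hb a' ha' b' hb' (Subtype.ext (by simpa using heq))
    exact ⟨by rw [e1], by rw [e2]⟩

end transfer

section chain

variable {G : Type*} [Group G]

/-- The states of the construction for groups that are not finitely generated. -/
def CState (G : Type*) [Group G] : Type _ :=
  {p : Set G × Set G × Subgroup G // p.2.2.FG ∧ Ex p.1 p.2.1 (p.2.2 : Set G)}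

theorem exists_bigger (hG : ¬ Group.FG G) (H : Subgroup G) (hH : H.FG) :
    ∃ K : Subgroup G, H < K ∧ K.FG := by
  have hne : H ≠ ⊤ := by
    rintro rfl
    exact hG ⟨hH⟩
  obtain ⟨g, -, hg⟩ := SetLike.exists_of_lt (lt_top_iff_ne_top.2 hne)
  refine ⟨H ⊔ Subgroup.closure {g}, ?_, hH.sup ⟨{g}, by simp⟩⟩
  refine lt_of_le_of_ne le_sup_left fun heq => hg ?_
  rw [heq]
  exact (le_sup_right : Subgroup.closure {g} ≤ H ⊔ Subgroup.closure {g})
    (Subgroup.subset_closure rfl)

theorem chain_next (hG : ¬ Group.FG G) (s : CState G) :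
    ∃ t : CState G, s.1.1 ⊂ t.1.1 ∧ s.1.2.1 ⊂ t.1.2.1 ∧ s.1.2.2 ≤ t.1.2.2 := by
  obtain ⟨⟨A, B, H⟩, hH, h⟩ := s
  simp only at hH h
  obtain ⟨K, hHK, hK⟩ := exists_bigger hG H hH
  obtain ⟨L, hKL, hL⟩ := exists_bigger hG K hK
  obtain ⟨A', hA, hE, hne⟩ := ext_left H K hHK.le A B h
  obtain ⟨B', hB, hE', hne'⟩ := ext_right K L hKL.le A' B hE
  exact ⟨⟨(A', B', L), hL, hE'⟩, hA.ssubset_of_ne (hne hHK.ne).symm,
    hB.ssubset_of_ne (hne' hKL.ne).symm, hHK.le.trans hKL.le⟩

theorem of_not_fg (hG : ¬ Group.FG G) :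
    ∃ A B : Set G, A.Infinite ∧ B.Infinite ∧ Ex A B univ := by
  choose nxt h1 h2 h3 using chain_next (G := G) hG
  let s : ℕ → CState G := fun n => Nat.rec ⟨({1}, {1}, ⊥), ⟨∅, by simp⟩, by
    refine ⟨?_, ?_, ?_⟩ <;> simp⟩ (fun _ t => nxt t) n
  have hs : ∀ n, s (n + 1) = nxt (s n) := fun n => rfl
  have key := limit (fun n => (s n).1.1) (fun n => (s n).1.2.1) (fun n => ((s n).1.2.2 : Set G))
    (fun n => by simpa only [hs] using h1 (s n)) (fun n => by simpa only [hs] using h2 (s n))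
    (fun n => (s n).2.2)
  have hmono : Monotone fun n => (s n).1.2.2 := monotone_nat_of_le_succ fun n => by
    simpa only [hs] using h3 (s n)
  refine of_subgroup (⨆ n, (s n).1.2.2) _ _ key.1 key.2.1 ?_
  rw [Subgroup.coe_iSup_of_directed hmono.directed_le]
  exact key.2.2

end chain

section neumann

variable {G : Type*} [Group G]

/-- The FC-centre: the elements whose centralizer has finite index. -/
def fc (G : Type*) [Group G] : Subgroup G where
  carrier := {w | (Subgroup.centralizer {w}).FiniteIndex}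
  one_mem' := by
    have : Subgroup.centralizer {(1 : G)} = ⊤ := by
      ext x; simp [Subgroup.mem_centralizer_iff]
    simp only [mem_setOf_eq, this]
    infer_instance
  mul_mem' := by
    intro a b ha hb
    simp only [mem_setOf_eq] at *
    refine Subgroup.finiteIndex_of_le (H := Subgroup.centralizer {a} ⊓ Subgroup.centralizer {b}) ?_
    intro x hx
    rw [Subgroup.mem_inf, Subgroup.mem_centralizer_singleton_iff,
      Subgroup.mem_centralizer_singleton_iff] at hx
    rw [Subgroup.mem_centralizer_singleton_iff]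
    rw [← mul_assoc, hx.1, mul_assoc, hx.2, mul_assoc]
  inv_mem' := by
    intro a ha
    simp only [mem_setOf_eq] at *
    refine Subgroup.finiteIndex_of_le (H := Subgroup.centralizer {a}) ?_
    intro x hx
    rw [Subgroup.mem_centralizer_singleton_iff] at *
    rw [eq_inv_mul_iff_mul_eq, ← mul_assoc, ← hx, mul_assoc, mul_inv_cancel, mul_one]

theorem mem_fc {w : G} : w ∈ fc G ↔ (Subgroup.centralizer {w}).FiniteIndex := Iff.rfl

theorem fc_finiteIndex [Infinite G] (F : Finset G) (S : Finset (G × G))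
    (hcov : ∀ x : G, x ∈ F ∨ ∃ p ∈ S, x * p.1 * x = p.2) : (fc G).FiniteIndex := by
  classical
  by_contra hfi
  have hinf : Infinite (G ⧸ fc G) := by
    by_contra hni
    rw [not_infinite_iff_finite] at hni
    exact hfi Subgroup.finiteIndex_of_finite_quotient
  -- representatives of different cosets
  let r : ℕ → G := fun n => (Infinite.natEmbedding (G ⧸ fc G) n).out
  have hr : ∀ i j, i ≠ j → (r i)⁻¹ * r j ∉ fc G := by
    intro i j hij hmem
    have : (QuotientGroup.mk (r i) : G ⧸ fc G) = QuotientGroup.mk (r j) :=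
      QuotientGroup.eq.2 hmem
    simp only [r, QuotientGroup.out_eq'] at this
    exact hij ((Infinite.natEmbedding (G ⧸ fc G)).injective this)
  set N := S.card + 1 with hN
  -- the cosets
  let P : Finset (ℕ × ℕ × (G × G)) :=
    ((Finset.range N ×ˢ Finset.range N ×ˢ S).filter fun q => q.1 ≠ q.2.1)
  let Q : Finset (ℕ × G) := Finset.range N ×ˢ F
  let H : (ℕ × ℕ × (G × G)) ⊕ (ℕ × G) → Subgroup G := fun q => match q with
    | Sum.inl q => Subgroup.centralizer {(r q.1)⁻¹ * r q.2.1}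
    | Sum.inr _ => ⊥
  let sol : ℕ × ℕ × (G × G) → G := fun q =>
    if h : ∃ x : G, x⁻¹ * (q.2.2.1⁻¹ * r q.1 * (r q.2.1)⁻¹ * q.2.2.1) * x
      = (r q.1)⁻¹ * r q.2.1 then h.choose else 1
  let g : (ℕ × ℕ × (G × G)) ⊕ (ℕ × G) → G := fun q => match q with
    | Sum.inl q => sol q
    | Sum.inr q => q.2 * r q.1
  have hcovers : ⋃ i ∈ P.disjSum Q, g i • (H i : Set G) = Set.univ := by
    refine eq_univ_of_forall fun x => ?_
    simp only [mem_iUnion]
    by_cases hx : ∃ n ∈ Finset.range N, x * (r n)⁻¹ ∈ F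
    · obtain ⟨n, hn, hxF⟩ := hx
      refine ⟨Sum.inr (n, x * (r n)⁻¹), ?_, ?_⟩
      · exact Finset.inr_mem_disjSum.2 (Finset.mem_product.2 ⟨hn, hxF⟩)
      · simp [g, H]
    · push Not at hx
      have hx' : ∀ n ∈ Finset.range N, ∃ p ∈ S, x * (r n)⁻¹ * p.1 * (x * (r n)⁻¹) = p.2 := by
        intro n hn
        rcases hcov (x * (r n)⁻¹) with h | h
        · exact absurd h (hx n hn)
        · exact h
      choose! p hpS hp using hx'
      obtain ⟨i, hi, j, hj, hij, hpij⟩ := Finset.exists_ne_map_eq_of_card_lt_of_maps_to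
        (s := Finset.range N) (t := S) (by rw [Finset.card_range]; omega) (f := p)
        (fun n hn => hpS n hn)
      have e1 := hp i hi
      have e2 := hp j hj
      rw [← hpij] at e2
      have e3 : x⁻¹ * ((p i).1⁻¹ * r j * (r i)⁻¹ * (p i).1) * x = (r j)⁻¹ * r i := by
        have e4 : (r i)⁻¹ * (p i).1 * x * (r i)⁻¹ = (r j)⁻¹ * (p i).1 * x * (r j)⁻¹ := by
          have := e1.trans e2.symm
          have := congrArg (fun z => x⁻¹ * z) this
          simpa [mul_assoc] using this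
        have e5 : (p i).1⁻¹ * r j * (r i)⁻¹ * (p i).1 * x = x * (r j)⁻¹ * r i := by
          have := congrArg (fun z => (p i).1⁻¹ * r j * z * r i) e4
          simpa [mul_assoc] using this
        rw [mul_assoc, e5]
        group
      refine ⟨Sum.inl (j, i, p i), ?_, ?_⟩
      · refine Finset.inl_mem_disjSum.2 (Finset.mem_filter.2 ⟨?_, hij.symm⟩)
        exact Finset.mem_product.2 ⟨hj, Finset.mem_product.2 ⟨hi, hpS i hi⟩⟩
      · have hex : ∃ x : G, x⁻¹ * ((p i).1⁻¹ * r j * (r i)⁻¹ * (p i).1) * x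
            = (r j)⁻¹ * r i := ⟨x, e3⟩
        have hsol : sol (j, i, p i) = hex.choose := by
          simp only [sol]
          rw [dif_pos hex]
        have hc := hex.choose_spec
        rw [← hsol] at hc
        rw [mem_smul_set_iff_inv_smul_mem]
        show (sol (j, i, p i))⁻¹ * x ∈ Subgroup.centralizer {(r j)⁻¹ * r i}
        rw [Subgroup.mem_centralizer_singleton_iff]
        set y := sol (j, i, p i)
        set v := (r j)⁻¹ * r i
        set u := (p i).1⁻¹ * r j * (r i)⁻¹ * (p i).1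
        have hu : u = x * v * x⁻¹ := by rw [← e3]; group
        rw [hu] at hc
        have := congrArg (fun z => z * (y⁻¹ * x)) hc
        simpa [mul_assoc] using this
  obtain ⟨k, hk, hkf⟩ := Subgroup.exists_finiteIndex_of_leftCoset_cover hcovers
  rcases k with q | q
  · rw [Finset.inl_mem_disjSum, Finset.mem_filter] at hk
    exact hr _ _ hk.2 hkf
  · have hb : (⊥ : Subgroup G).FiniteIndex := hkf
    have : Finite G := by
      have h0 := hb.index_ne_zero
      rw [Subgroup.index_bot] at h0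
      exact Nat.finite_of_card_ne_zero h0
    exact not_finite G

theorem exists_infinite_order [Infinite G] [Group.FG G] [(fc G).FiniteIndex] :
    ∃ z : G, ¬ IsOfFinOrder z := by
  classical
  by_contra hcon
  push Not at hcon
  have hfg : Group.FG (fc G) := inferInstance
  obtain ⟨S, hS⟩ := hfg.1
  let C : Subgroup G := ⨅ w ∈ S, Subgroup.centralizer {(w : G)}
  haveI hC : C.FiniteIndex := Subgroup.finiteIndex_iInf'
    (fun w : fc G => Subgroup.centralizer {(w : G)}) fun w _ => w.2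
  let Z : Subgroup G := fc G ⊓ C
  haveI hZ : Z.FiniteIndex := inferInstance
  have hcomm : ∀ a ∈ Z, ∀ b ∈ Z, a * b = b * a := by
    intro a ha b hb
    have haC : ∀ w ∈ S, a * (w : G) = w * a := by
      intro w hw
      have : a ∈ Subgroup.centralizer {(w : G)} := by
        have h1 : a ∈ C := ha.2
        exact (iInf₂_le w hw : C ≤ Subgroup.centralizer {(w : G)}) h1
      exact Subgroup.mem_centralizer_singleton_iff.1 this
    have hle : (⊤ : Subgroup (fc G)) ≤ (Subgroup.centralizer {a}).subgroupOf (fc G) := by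
      rw [← hS, Subgroup.closure_le]
      intro w hw
      rw [SetLike.mem_coe, Subgroup.mem_subgroupOf, Subgroup.mem_centralizer_singleton_iff]
      exact (haC w hw).symm
    have := hle (Subgroup.mem_top (⟨b, hb.1⟩ : fc G))
    rw [Subgroup.mem_subgroupOf, Subgroup.mem_centralizer_singleton_iff] at this
    exact this.symm
  letI : CommGroup Z := { (inferInstance : Group Z) with
    mul_comm := fun a b => Subtype.ext (hcomm a a.2 b b.2) }
  have hfgZ : Group.FG Z := inferInstance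
  have htors : IsMulTorsion Z := by
    intro z
    have := hcon (z : G)
    exact (Submonoid.isOfFinOrder_coe (H := Z.toSubmonoid) (x := z)).1 this
  have hfin : Finite Z := CommGroup.finite_of_fg_isMulTorsion Z htors
  have : Finite G := by
    have h1 := Subgroup.card_mul_index Z
    have h2 : Nat.card Z ≠ 0 := Nat.card_ne_zero.2 ⟨⟨1⟩, hfin⟩
    have h3 := hZ.index_ne_zero
    refine Nat.finite_of_card_ne_zero ?_
    rw [← h1]
    exact mul_ne_zero h2 h3
  exact not_finite G

end neumann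

section main

variable {G : Type*} [Group G]

theorem countable_of_fg [Group.FG G] : Countable G := by
  obtain ⟨n, _, φ, hφ⟩ := Group.fg_iff_exists_freeGroup_hom_surjective_finite.1
    (inferInstance : Group.FG G)
  haveI : Countable (FreeGroup n) := Quot.mk_surjective.countable
  exact hφ.countable

theorem free_zpowers {z : G} (hz : ¬ IsOfFinOrder z) : Free (Subgroup.zpowers z) := by
  classical
  intro F S
  haveI : Infinite (Subgroup.zpowers z) := by
    have := infinite_zpowers.2 hz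
    exact Set.infinite_coe_iff.2 this
  let T : Finset (Subgroup.zpowers z) := F
  by_contra hcon
  push Not at hcon
  -- each equation has at most one solution
  have huniq : ∀ p ∈ S, ∀ x y : Subgroup.zpowers z, x * p.1 * x = p.2 → y * p.1 * y = p.2 →
      x = y := by
    intro p hp x y hx hy
    obtain ⟨x, m, rfl⟩ := x
    obtain ⟨y, n, rfl⟩ := y
    obtain ⟨⟨c, k, hk⟩, d⟩ := p
    have h := hx.trans hy.symm
    have h' := congrArg Subtype.val h
    simp only [Subgroup.coe_mul] at h'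
    rw [← hk] at h'
    simp only [← zpow_add] at h'
    have hinj := injective_zpow_iff_not_isOfFinOrder.2 hz
    have := hinj h'
    have hmn : m = n := by omega
    subst hmn
    rfl
  let sol : (Subgroup.zpowers z × Subgroup.zpowers z) → Subgroup.zpowers z := fun p =>
    if h : ∃ x : Subgroup.zpowers z, x * p.1 * x = p.2 then h.choose else 1
  obtain ⟨x, hx⟩ := Infinite.exists_notMem_finset (F ∪ S.image sol)
  rw [Finset.mem_union, not_or] at hx
  obtain ⟨p, hp, hpx⟩ := hcon x hx.1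
  apply hx.2
  rw [Finset.mem_image]
  refine ⟨p, hp, ?_⟩
  have hex : ∃ x : Subgroup.zpowers z, x * p.1 * x = p.2 := ⟨x, hpx⟩
  have : sol p = hex.choose := by
    simp only [sol]
    rw [dif_pos hex]
  rw [this]
  exact huniq p hp _ _ hex.choose_spec hpx

theorem main [Infinite G] : ∃ A B : Set G, A.Infinite ∧ B.Infinite ∧ Ex A B univ := by
  by_cases hfg : Group.FG G
  · by_cases hfree : Free G
    · haveI : Countable G := countable_of_fg
      exact greedy hfree
    · have hcov : ∃ (F : Finset G) (S : Finset (G × G)),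
          ∀ x : G, x ∈ F ∨ ∃ p ∈ S, x * p.1 * x = p.2 := by
        by_contra hcon
        apply hfree
        intro F S
        by_contra hcon2
        apply hcon
        refine ⟨F, S, fun x => ?_⟩
        by_contra hx
        rw [not_or] at hx
        apply hcon2
        refine ⟨x, hx.1, fun p hp heq => hx.2 ⟨p, hp, heq⟩⟩
      obtain ⟨F, S, hcov⟩ := hcov
      haveI := fc_finiteIndex F S hcov
      obtain ⟨z, hz⟩ := exists_infinite_order (G := G)
      haveI : Infinite (Subgroup.zpowers z) := by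
        have := infinite_zpowers.2 hz
        exact Set.infinite_coe_iff.2 this
      exact of_free_subgroup (Subgroup.zpowers z) (free_zpowers hz)
  · exact of_not_fg hfg

end main

/-- Every infinite group `G` has two infinite subsets `A`, `B` such that every element of `G` is
`a * b` for exactly one pair `(a, b)` with `a ∈ A` and `b ∈ B`. -/
theorem result (G : Type*) [Group G] [Infinite G] :
    ∃ A B : Set G, A.Infinite ∧ B.Infinite ∧
      ∀ g : G, ∃! p : G × G, p.1 ∈ A ∧ p.2 ∈ B ∧ p.1 * p.2 = g := by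
  obtain ⟨A, B, hA, hB, h⟩ := main (G := G)
  refine ⟨A, B, hA, hB, fun g => ?_⟩
  obtain ⟨a, ha, b, hb, hab⟩ := h.2.1 g trivial
  refine ⟨(a, b), ⟨ha, hb, hab⟩, ?_⟩
  rintro ⟨a', b'⟩ ⟨ha', hb', hab'⟩
  obtain ⟨e1, e2⟩ := h.2.2 a' ha' b' hb' a ha b hb (hab'.trans hab.symm)
  rw [e1, e2]

end Pool.Agent.Results.MP_b3a091_al.EveryInfiniteGroup
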